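import Mathlib

/-!
Plancherel for functions in `L¹ ∩ L²` on the line, with the Fourier transform given by the
integral, and duality (multiplication formula).
-/

open MeasureTheory FourierTransform SchwartzMap
open scoped ContDiff

namespace Pool.Agent.Helper95_Fourier

/-- Multiplication formula `∫ f̂ g = ∫ f ĝ` for integrable functions on `ℝ`. -/
theorem integral_fourier_mul_eq {f g : ℝ → ℂ} (hf : Integrable f) (hg : Integrable g) :
    ∫ x, 𝓕 f x * g x = ∫ x, f x * 𝓕 g x := by
  have := VectorFourier.integral_fourierIntegral_smul_eq_flip (𝕜 := ℝ) (L := innerₗ ℝ)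
    (e := Real.fourierChar) (μ := volume) (ν := volume)
    Real.continuous_fourierChar continuous_inner hf hg
  simpa [smul_eq_mul, flip_innerₗ] using! this

/-- For `f ∈ L¹ ∩ L²`, the `L²` Fourier transform is a.e. the integral Fourier transform. -/
theorem fourier_toLp_ae_eq {f : ℝ → ℂ} (h1 : Integrable f) (h2 : MemLp f 2) :
    (𝓕 (h2.toLp f) : Lp ℂ 2 (volume : Measure ℝ)) =ᵐ[volume] 𝓕 f := by
  set F2 : Lp ℂ 2 (volume : Measure ℝ) := 𝓕 (h2.toLp f) with hF2
  have hcont : Continuous (𝓕 f) :=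
    VectorFourier.fourierIntegral_continuous Real.continuous_fourierChar
      (by exact continuous_inner) h1
  apply ae_eq_of_integral_contDiff_smul_eq
  · exact (Lp.memLp F2).locallyIntegrable (by norm_num)
  · exact hcont.locallyIntegrable
  · intro g g_smooth g_cpt
    have hg₁ : HasCompactSupport (Complex.ofRealCLM ∘ g) := g_cpt.comp_left rfl
    have hg₂ : ContDiff ℝ ∞ (Complex.ofRealCLM ∘ g) := Complex.ofRealCLM.contDiff.comp g_smooth
    set G : 𝓢(ℝ, ℂ) := hg₁.toSchwartzMap hg₂ with hG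
    have hGg : ∀ x, G x = (g x : ℂ) := fun x => by simp [hG]
    have e1 : ∫ x, g x • F2 x = (F2 : 𝓢'(ℝ, ℂ)) G := by
      rw [Lp.toTemperedDistribution_apply]
      simp [hGg]
    have e2 : (F2 : 𝓢'(ℝ, ℂ)) G = ∫ x, (𝓕 G) x • f x := by
      rw [hF2, ← Lp.fourier_toTemperedDistribution_eq, TemperedDistribution.fourier_apply,
        Lp.toTemperedDistribution_apply]
      apply integral_congr_ae
      filter_upwards [h2.coeFn_toLp] with x hx
      rw [hx]
    have e3 : ∫ x, (𝓕 G) x • f x = ∫ x, g x • 𝓕 f x := by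
      have := integral_fourier_mul_eq (G.integrable (μ := volume)) h1
      simp only [smul_eq_mul]
      refine Eq.trans (Eq.trans ?_ this) ?_
      · rfl
      · simp [hGg]
    rw [e1, e2, e3]

/-- Plancherel for `L¹ ∩ L²`. -/
theorem eLpNorm_fourier_eq {f : ℝ → ℂ} (h1 : Integrable f) (h2 : MemLp f 2) :
    eLpNorm (𝓕 f) 2 volume = eLpNorm f 2 volume := by
  rw [← eLpNorm_congr_ae (fourier_toLp_ae_eq h1 h2), ← eLpNorm_congr_ae h2.coeFn_toLp]
  have := Lp.norm_fourier_eq (h2.toLp f)
  rw [Lp.norm_def, Lp.norm_def] at this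
  exact (ENNReal.toReal_eq_toReal_iff' (Lp.eLpNorm_ne_top _) (Lp.eLpNorm_ne_top _)).1 this

end Pool.Agent.Helper95_Fourier
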