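import Pool.Agent.Helper95_Fourier.Plancherel

/-!
Two `L²` bounds for self-convolutions: Young's inequality `(4/3,4/3) → 2`, and a bound for
functions carried by a set `A` with `|A ∩ (x - A)| ≤ 2` for all `x`.
-/

open MeasureTheory FourierTransform
open scoped ENNReal

namespace Pool.Agent.Helper95_Fourier

/-- Cauchy-Schwarz in `ℝ≥0∞`. -/
theorem lintegral_mul_sq_le {α : Type*} [MeasurableSpace α] (μ : Measure α) {f g : α → ℝ≥0∞}
    (hf : AEMeasurable f μ) (hg : AEMeasurable g μ) :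
    (∫⁻ a, f a * g a ∂μ) ^ 2 ≤ (∫⁻ a, f a ^ 2 ∂μ) * (∫⁻ a, g a ^ 2 ∂μ) := by
  have h := ENNReal.lintegral_mul_le_Lp_mul_Lq μ Real.HolderConjugate.two_two hf hg
  simp only [Pi.mul_apply] at h
  calc (∫⁻ a, f a * g a ∂μ) ^ 2
      ≤ ((∫⁻ a, f a ^ (2:ℝ) ∂μ) ^ (1 / (2:ℝ)) * (∫⁻ a, g a ^ (2:ℝ) ∂μ) ^ (1 / (2:ℝ))) ^ 2 := by
        gcongr
    _ = (∫⁻ a, f a ^ 2 ∂μ) * (∫⁻ a, g a ^ 2 ∂μ) := by
        rw [mul_pow, ← ENNReal.rpow_natCast, ← ENNReal.rpow_natCast, ← ENNReal.rpow_mul,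
          ← ENNReal.rpow_mul]
        norm_num

/-- self-convolution of a nonnegative function -/
noncomputable def conv (g : ℝ → ℝ≥0∞) (x : ℝ) : ℝ≥0∞ := ∫⁻ y, g y * g (x - y)

theorem measurable_conv_integrand {g : ℝ → ℝ≥0∞} (hg : Measurable g) :
    Measurable (fun p : ℝ × ℝ => g p.2 * g (p.1 - p.2)) :=
  (hg.comp measurable_snd).mul (hg.comp (measurable_fst.sub measurable_snd))

theorem measurable_conv {g : ℝ → ℝ≥0∞} (hg : Measurable g) : Measurable (conv g) :=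
  (measurable_conv_integrand hg).lintegral_prod_right'

theorem lintegral_conv {g : ℝ → ℝ≥0∞} (hg : Measurable g) :
    ∫⁻ x, conv g x = (∫⁻ x, g x) ^ 2 := by
  unfold conv
  rw [lintegral_lintegral_swap (measurable_conv_integrand hg).aemeasurable]
  have : ∀ y : ℝ, ∫⁻ x, g y * g (x - y) = g y * ∫⁻ x, g x := by
    intro y
    have hm : Measurable (fun x => g (x - y)) := hg.comp (measurable_id.sub_const y)
    rw [lintegral_const_mul _ hm]
    congr 1
    exact lintegral_sub_right_eq_self g y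
  simp_rw [this]
  rw [lintegral_mul_const _ hg, sq]

theorem lintegral_comp_sub_left (g : ℝ → ℝ≥0∞) (x : ℝ) : ∫⁻ y, g (x - y) = ∫⁻ y, g y :=
  lintegral_sub_left_eq_self g x

/-- Young's inequality `‖f * f‖₂ ≤ ‖f‖_{4/3}²`. -/
theorem lintegral_conv_sq_le_young {g : ℝ → ℝ≥0∞} (hg : Measurable g) :
    ∫⁻ x, conv g x ^ 2 ≤ (∫⁻ x, g x ^ (4 / 3 : ℝ)) ^ 3 := by
  set G : ℝ → ℝ≥0∞ := fun x => g x ^ (4 / 3 : ℝ) with hG
  have hGm : Measurable G := hg.pow_const _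
  set I := ∫⁻ x, G x with hI
  have key : ∀ x, conv g x ^ 2 ≤ conv G x * I := by
    intro x
    have hgx : Measurable (fun y => g (x - y)) := hg.comp (measurable_const.sub measurable_id)
    have h1 : conv g x ^ 2 ≤ (∫⁻ y, (g y ^ (2 / 3 : ℝ) * g (x - y) ^ (2 / 3 : ℝ)) ^ 2) *
        ∫⁻ y, (g y ^ (1 / 3 : ℝ) * g (x - y) ^ (1 / 3 : ℝ)) ^ 2 := by
      refine le_trans (le_of_eq ?_) (lintegral_mul_sq_le volume ?_ ?_)
      · congr 1
        unfold conv
        congr 1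
        ext y
        have e : ∀ c : ℝ≥0∞, c ^ (2 / 3 : ℝ) * c ^ (1 / 3 : ℝ) = c := by
          intro c
          rw [← ENNReal.rpow_add_of_nonneg _ _ (by norm_num) (by norm_num)]
          norm_num
        calc g y * g (x - y) = (g y ^ (2 / 3 : ℝ) * g y ^ (1 / 3 : ℝ)) *
              (g (x - y) ^ (2 / 3 : ℝ) * g (x - y) ^ (1 / 3 : ℝ)) := by rw [e, e]
          _ = _ := by ring
      · exact ((hg.pow_const _).mul (hgx.pow_const _)).aemeasurable
      · exact ((hg.pow_const _).mul (hgx.pow_const _)).aemeasurable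
    have h2 : ∫⁻ y, (g y ^ (2 / 3 : ℝ) * g (x - y) ^ (2 / 3 : ℝ)) ^ 2 = conv G x := by
      unfold conv
      congr 1
      ext y
      rw [mul_pow, ← ENNReal.rpow_natCast, ← ENNReal.rpow_natCast, ← ENNReal.rpow_mul,
        ← ENNReal.rpow_mul]
      norm_num [hG]
    have h3 : ∫⁻ y, (g y ^ (1 / 3 : ℝ) * g (x - y) ^ (1 / 3 : ℝ)) ^ 2 ≤ I := by
      have h4 : (∫⁻ y, (g y ^ (1 / 3 : ℝ) * g (x - y) ^ (1 / 3 : ℝ)) ^ 2) ^ 2 ≤ I * I := by
        refine le_trans (le_of_eq ?_) (le_trans (lintegral_mul_sq_le volume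
          (f := fun y => g y ^ (2 / 3 : ℝ)) (g := fun y => g (x - y) ^ (2 / 3 : ℝ)) ?_ ?_)
          (le_of_eq ?_))
        · congr 1
          congr 1
          ext y
          rw [mul_pow, ← ENNReal.rpow_natCast, ← ENNReal.rpow_natCast, ← ENNReal.rpow_mul,
            ← ENNReal.rpow_mul]
          norm_num
        · exact (hg.pow_const _).aemeasurable
        · exact (hgx.pow_const _).aemeasurable
        · have e5 : ∀ c : ℝ≥0∞, (c ^ (2 / 3 : ℝ)) ^ 2 = c ^ (4 / 3 : ℝ) := by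
            intro c
            rw [← ENNReal.rpow_natCast, ← ENNReal.rpow_mul]
            norm_num
          simp only [e5]
          congr 1
          exact lintegral_comp_sub_left G x
      rw [← sq] at h4
      exact (ENNReal.pow_le_pow_left_iff (by norm_num)).1 h4
    rw [h2] at h1
    exact h1.trans (by gcongr)
  calc ∫⁻ x, conv g x ^ 2 ≤ ∫⁻ x, conv G x * I := lintegral_mono key
    _ = (∫⁻ x, conv G x) * I := lintegral_mul_const _ (measurable_conv hGm)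
    _ = I ^ 3 := by rw [lintegral_conv hGm]; ring

/-- The bound for functions carried by a sparse set. -/
theorem lintegral_conv_sq_le_sparse {A : Set ℝ} (hA : MeasurableSet A)
    (hA2 : ∀ x : ℝ, volume (A ∩ {y | x - y ∈ A}) ≤ 2) {g : ℝ → ℝ≥0∞} (hg : Measurable g)
    (hgA : ∀ x, x ∉ A → g x = 0) :
    ∫⁻ x, conv g x ^ 2 ≤ 2 * (∫⁻ x, g x ^ 2) ^ 2 := by
  set G : ℝ → ℝ≥0∞ := fun x => g x ^ 2 with hG
  have hGm : Measurable G := hg.pow_const _
  have key : ∀ x, conv g x ^ 2 ≤ 2 * conv G x := by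
    intro x
    have hgx : Measurable (fun y => g (x - y)) := hg.comp (measurable_const.sub measurable_id)
    set S : Set ℝ := A ∩ {y | x - y ∈ A} with hS
    have hSm : MeasurableSet S := hA.inter (hA.preimage (measurable_const.sub measurable_id))
    have h0 : conv g x = ∫⁻ y in S, g y * g (x - y) := by
      unfold conv
      rw [← lintegral_indicator hSm]
      congr 1
      ext y
      by_cases hy : y ∈ S
      · rw [Set.indicator_of_mem hy]
      · rw [Set.indicator_of_notMem hy]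
        by_cases hyA : y ∈ A
        · have : x - y ∉ A := fun h => hy ⟨hyA, h⟩
          rw [hgA _ this, mul_zero]
        · rw [hgA _ hyA, zero_mul]
    have h1 : conv g x ^ 2 ≤ (∫⁻ y in S, (1 : ℝ≥0∞) ^ 2) * ∫⁻ y in S, (g y * g (x - y)) ^ 2 := by
      rw [h0]
      refine le_trans (le_of_eq ?_) (lintegral_mul_sq_le (volume.restrict S)
        (f := fun _ => 1) (g := fun y => g y * g (x - y)) aemeasurable_const
        (hg.mul hgx).aemeasurable)
      simp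
    have h2 : (∫⁻ y in S, (1 : ℝ≥0∞) ^ 2) ≤ 2 := by
      simpa using hA2 x
    have h3 : ∫⁻ y in S, (g y * g (x - y)) ^ 2 ≤ conv G x := by
      refine le_trans (setLIntegral_le_lintegral _ _) (le_of_eq ?_)
      unfold conv
      congr 1
      ext y
      simp [hG, mul_pow]
    exact h1.trans (by gcongr)
  calc ∫⁻ x, conv g x ^ 2 ≤ ∫⁻ x, 2 * conv G x := lintegral_mono key
    _ = 2 * (∫⁻ x, conv G x) := lintegral_const_mul _ (measurable_conv hGm)
    _ = 2 * (∫⁻ x, g x ^ 2) ^ 2 := by rw [lintegral_conv hGm]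

/-- `‖f̂‖₄⁴ ≤ ‖ |f| * |f| ‖₂²`. -/
theorem lintegral_fourier_pow_four_le {f : ℝ → ℂ} (hf : Integrable f) :
    ∫⁻ x, ‖𝓕 f x‖ₑ ^ 4 ≤ ∫⁻ x, conv (fun y => ‖f y‖ₑ) x ^ 2 := by
  by_cases htop : ∫⁻ x, conv (fun y => ‖f y‖ₑ) x ^ 2 = ∞
  · rw [htop]; exact le_top
  set F : ℝ → ℂ := convolution f f (ContinuousLinearMap.mul ℂ ℂ) volume with hF
  have hFi : Integrable F := hf.integrable_convolution (ContinuousLinearMap.mul ℂ ℂ) hf
  have hle : ∀ x, ‖F x‖ₑ ≤ conv (fun y => ‖f y‖ₑ) x := by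
    intro x
    rw [hF, convolution_def]
    refine (enorm_integral_le_lintegral_enorm _).trans (le_of_eq ?_)
    unfold conv
    simp [enorm_mul]
  have hF2 : ∫⁻ x, ‖F x‖ₑ ^ 2 ≤ ∫⁻ x, conv (fun y => ‖f y‖ₑ) x ^ 2 :=
    lintegral_mono fun x => by gcongr; exact hle x
  have hFL2 : MemLp F 2 := by
    refine ⟨hFi.1, ?_⟩
    rw [eLpNorm_lt_top_iff_lintegral_rpow_enorm_lt_top (by norm_num) (by norm_num)]
    have : ∀ c : ℝ≥0∞, c ^ (2 : ℝ≥0∞).toReal = c ^ 2 := by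
      intro c; simp
    simp only [this]
    exact lt_of_le_of_lt hF2 (lt_top_iff_ne_top.2 htop)
  have hPl := eLpNorm_fourier_eq hFi hFL2
  have hconv : ∀ x, 𝓕 F x = 𝓕 f x * 𝓕 f x := fun x => Real.fourier_mul_convolution_eq hf hf x
  have e2 : ∀ g : ℝ → ℂ, eLpNorm g 2 volume ^ 2 = ∫⁻ x, ‖g x‖ₑ ^ 2 := by
    intro g
    rw [eLpNorm_eq_lintegral_rpow_enorm_toReal (by norm_num) (by norm_num)]
    rw [← ENNReal.rpow_natCast, ← ENNReal.rpow_mul]
    simp
  have e3 : ∫⁻ x, ‖𝓕 F x‖ₑ ^ 2 = ∫⁻ x, ‖F x‖ₑ ^ 2 := by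
    rw [← e2, ← e2, hPl]
  calc ∫⁻ x, ‖𝓕 f x‖ₑ ^ 4 = ∫⁻ x, ‖𝓕 F x‖ₑ ^ 2 := by
        congr 1
        ext x
        rw [hconv, enorm_mul]
        ring
    _ = ∫⁻ x, ‖F x‖ₑ ^ 2 := e3
    _ ≤ _ := hF2

end Pool.Agent.Helper95_Fourier
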