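import Pool.Agent.Helper95_Fourier.Conv

/-!
The sparse set `A = ⋃ₖ [4^(k+1), 4^(k+1)+1]`.
-/

open MeasureTheory FourierTransform Set
open scoped ENNReal

namespace Pool.Agent.Helper95_Fourier

/-- The union of the intervals `[4^(k+1), 4^(k+1)+1]`, `k ∈ ℕ`. -/
def sparseSet : Set ℝ := ⋃ k : ℕ, Icc ((4 : ℝ) ^ (k + 1)) ((4 : ℝ) ^ (k + 1) + 1)

theorem measurableSet_sparseSet : MeasurableSet sparseSet :=
  MeasurableSet.iUnion fun _ => measurableSet_Icc

theorem four_pow_ge (k : ℕ) : (4 : ℝ) ≤ 4 ^ (k + 1) := by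
  have : (4 : ℝ) ^ 1 ≤ 4 ^ (k + 1) := pow_le_pow_right₀ (by norm_num) (by omega)
  simpa using this

theorem four_pow_lt {j k : ℕ} (h : j < k) : 2 * (4 : ℝ) ^ (j + 1) + 2 < 4 ^ (k + 1) := by
  have h1 : (4 : ℝ) ^ (j + 2) ≤ 4 ^ (k + 1) := pow_le_pow_right₀ (by norm_num) (by omega)
  have h2 := four_pow_ge j
  have h3 : (4 : ℝ) ^ (j + 2) = 4 * 4 ^ (j + 1) := by ring
  linarith

theorem pairwise_disjoint_sparse :
    Pairwise (Function.onFun Disjoint fun k : ℕ => Icc ((4 : ℝ) ^ (k + 1)) ((4 : ℝ) ^ (k + 1) + 1)) := by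
  intro j k hjk
  rw [Function.onFun, Set.disjoint_left]
  rintro x ⟨h1, h2⟩ ⟨h3, h4⟩
  rcases lt_or_gt_of_ne hjk with h | h
  · have := four_pow_lt h; have := four_pow_ge j; linarith
  · have := four_pow_lt h; have := four_pow_ge k; linarith

theorem volume_sparseSet : volume sparseSet = ∞ := by
  rw [sparseSet, measure_iUnion pairwise_disjoint_sparse (fun _ => measurableSet_Icc)]
  simp [Real.volume_Icc]

theorem volume_inter_le (x : ℝ) :
    volume (sparseSet ∩ {y | x - y ∈ sparseSet}) ≤ 2 := by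
  by_cases hne : (sparseSet ∩ {y | x - y ∈ sparseSet}).Nonempty
  swap
  · rw [Set.not_nonempty_iff_eq_empty] at hne
    simp [hne]
  -- every point of the set determines an index `m` with `4^(m+1) ≤ x ≤ 2*4^(m+1)+2`
  have key : ∀ y ∈ sparseSet ∩ {y | x - y ∈ sparseSet}, ∃ m : ℕ,
      (4 : ℝ) ^ (m + 1) ≤ x ∧ x ≤ 2 * 4 ^ (m + 1) + 2 ∧
      (y ∈ Icc ((4 : ℝ) ^ (m + 1)) ((4 : ℝ) ^ (m + 1) + 1) ∨
        y ∈ Icc (x - ((4 : ℝ) ^ (m + 1) + 1)) (x - (4 : ℝ) ^ (m + 1))) := by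
    rintro y ⟨hy1, hy2⟩
    simp only [sparseSet, mem_iUnion, mem_Icc, mem_ofPred_eq] at hy1 hy2
    obtain ⟨j, hj1, hj2⟩ := hy1
    obtain ⟨k, hk1, hk2⟩ := hy2
    rcases le_total j k with h | h
    · have hle : (4 : ℝ) ^ (j + 1) ≤ 4 ^ (k + 1) := pow_le_pow_right₀ (by norm_num) (by omega)
      have := four_pow_ge j
      exact ⟨k, by linarith, by linarith, Or.inr ⟨by linarith, by linarith⟩⟩
    · have hle : (4 : ℝ) ^ (k + 1) ≤ 4 ^ (j + 1) := pow_le_pow_right₀ (by norm_num) (by omega)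
      have := four_pow_ge k
      exact ⟨j, by linarith, by linarith, Or.inl ⟨by linarith, by linarith⟩⟩
  obtain ⟨y0, hy0⟩ := hne
  obtain ⟨m, hm1, hm2, -⟩ := key y0 hy0
  have hsub : sparseSet ∩ {y | x - y ∈ sparseSet} ⊆
      Icc ((4 : ℝ) ^ (m + 1)) ((4 : ℝ) ^ (m + 1) + 1) ∪
        Icc (x - ((4 : ℝ) ^ (m + 1) + 1)) (x - (4 : ℝ) ^ (m + 1)) := by
    intro y hy
    obtain ⟨m', h1, h2, h3⟩ := key y hy
    have : m' = m := by
      rcases lt_trichotomy m' m with h | h | h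
      · have := four_pow_lt h; linarith
      · exact h
      · have := four_pow_lt h; linarith
    subst this
    exact h3
  refine (measure_mono hsub).trans ((measure_union_le _ _).trans ?_)
  rw [Real.volume_Icc, Real.volume_Icc]
  have e1 : (4 : ℝ) ^ (m + 1) + 1 - 4 ^ (m + 1) = 1 := by ring
  have e2 : x - (4 : ℝ) ^ (m + 1) - (x - (4 ^ (m + 1) + 1)) = 1 := by ring
  rw [e1, e2, ENNReal.ofReal_one]
  norm_num

theorem volume_compl_sparseSet_pos : volume (sparseSetᶜ) ≠ 0 := by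
  have hsub : Ioo (0 : ℝ) 1 ⊆ sparseSetᶜ := by
    intro x hx hxA
    simp only [sparseSet, mem_iUnion, mem_Icc] at hxA
    obtain ⟨k, hk1, -⟩ := hxA
    have := four_pow_ge k
    have := hx.2
    linarith
  intro h
  have := measure_mono_null hsub h
  simp [Real.volume_Ioo] at this

section bounds

variable {f : ℝ → ℂ}

theorem lintegral_fourier_sq_eq (hf : Integrable f) (hf2 : ∫⁻ x, ‖f x‖ₑ ^ 2 < ∞) :
    ∫⁻ x, ‖𝓕 f x‖ₑ ^ 2 = ∫⁻ x, ‖f x‖ₑ ^ 2 := by
  have e2 : ∀ g : ℝ → ℂ, eLpNorm g 2 volume ^ 2 = ∫⁻ x, ‖g x‖ₑ ^ 2 := by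
    intro g
    rw [eLpNorm_eq_lintegral_rpow_enorm_toReal (by norm_num) (by norm_num)]
    rw [← ENNReal.rpow_natCast, ← ENNReal.rpow_mul]
    simp
  have hL2 : MemLp f 2 := by
    refine ⟨hf.1, ?_⟩
    by_contra hcon
    rw [not_lt, top_le_iff] at hcon
    have h3 := e2 f
    rw [hcon] at h3
    rw [← h3] at hf2
    simp at hf2
  rw [← e2, ← e2, eLpNorm_fourier_eq hf hL2]

/-- Fourier bound `L² → L⁴` for functions carried by the sparse set (squared form). -/
theorem fourier_four_of_sparse (hf : Integrable f) (hA : ∀ x, x ∉ sparseSet → f x = 0) :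
    ∫⁻ x, ‖𝓕 f x‖ₑ ^ 4 ≤ 2 * (∫⁻ x, ‖f x‖ₑ ^ 2) ^ 2 := by
  -- pass to a measurable representative
  obtain ⟨f', hf'm, hf'⟩ := hf.1
  set f'' : ℝ → ℂ := sparseSet.indicator f' with hf''
  have hae : f =ᵐ[volume] f'' := by
    filter_upwards [hf'] with x hx
    by_cases h : x ∈ sparseSet
    · rw [hf'', indicator_of_mem h, hx]
    · rw [hf'', indicator_of_notMem h, hA x h]
  have hm : Measurable f'' := (hf'm.measurable).indicator measurableSet_sparseSet
  have hint : Integrable f'' := hf.congr hae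
  have hF : 𝓕 f = 𝓕 f'' := by
    ext ξ
    rw [Real.fourier_eq, Real.fourier_eq]
    apply integral_congr_ae
    filter_upwards [hae] with x hx
    rw [hx]
  rw [hF]
  have e : ∫⁻ x, ‖f x‖ₑ ^ 2 = ∫⁻ x, ‖f'' x‖ₑ ^ 2 := by
    apply lintegral_congr_ae
    filter_upwards [hae] with x hx
    rw [hx]
  rw [e]
  refine (lintegral_fourier_pow_four_le hint).trans ?_
  exact lintegral_conv_sq_le_sparse measurableSet_sparseSet volume_inter_le hm.enorm
    (fun x hx => by simp [hf'', indicator_of_notMem hx])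

/-- Hausdorff-Young `L^{4/3} → L⁴` (fourth-power form). -/
theorem fourier_four_of_young (hf : Integrable f) :
    ∫⁻ x, ‖𝓕 f x‖ₑ ^ 4 ≤ (∫⁻ x, ‖f x‖ₑ ^ (4 / 3 : ℝ)) ^ 3 := by
  obtain ⟨f', hf'm, hae⟩ := hf.1
  have hint : Integrable f' := hf.congr hae
  have hF : 𝓕 f = 𝓕 f' := by
    ext ξ
    rw [Real.fourier_eq, Real.fourier_eq]
    apply integral_congr_ae
    filter_upwards [hae] with x hx
    rw [hx]
  rw [hF]
  have e : ∫⁻ x, ‖f x‖ₑ ^ (4 / 3 : ℝ) = ∫⁻ x, ‖f' x‖ₑ ^ (4 / 3 : ℝ) := by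
    apply lintegral_congr_ae
    filter_upwards [hae] with x hx
    rw [hx]
  rw [e]
  exact (lintegral_fourier_pow_four_le hint).trans
    (lintegral_conv_sq_le_young hf'm.measurable.enorm)

/-- Dual bound `L^{4/3} → L²(A)`, normalized. -/
theorem fourier_two_on_sparse (hf : Integrable f) (h1 : ∫⁻ x, ‖f x‖ₑ ^ (4 / 3 : ℝ) ≤ 1) :
    ∫⁻ x in sparseSet, ‖𝓕 f x‖ₑ ^ 2 ≤ 2 := by
  have hcont : Continuous (𝓕 f) :=
    VectorFourier.fourierIntegral_continuous Real.continuous_fourierChar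
      (by exact continuous_inner) hf
  -- truncations
  set B : ℕ → Set ℝ := fun N => sparseSet ∩ Icc (-(N : ℝ)) N with hB
  have hBm : ∀ N, MeasurableSet (B N) := fun N => measurableSet_sparseSet.inter measurableSet_Icc
  have hmono : Monotone B := by
    intro M N hMN x hx
    refine ⟨hx.1, ?_, ?_⟩
    · have : (M : ℝ) ≤ N := by exact_mod_cast hMN
      have := hx.2.1
      linarith
    · have : (M : ℝ) ≤ N := by exact_mod_cast hMN
      have := hx.2.2
      linarith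
  have hUn : ⋃ N, B N = sparseSet := by
    ext x
    simp only [hB, mem_iUnion, mem_inter_iff, mem_Icc]
    constructor
    · rintro ⟨N, h, -⟩; exact h
    · intro h
      obtain ⟨N, hN⟩ := exists_nat_ge |x|
      exact ⟨N, h, by linarith [neg_abs_le x], by linarith [le_abs_self x]⟩
  have hlim : ∫⁻ x in sparseSet, ‖𝓕 f x‖ₑ ^ 2 = ⨆ N, ∫⁻ x in B N, ‖𝓕 f x‖ₑ ^ 2 := by
    rw [← hUn, ← setLIntegral_iUnion_of_directed _ (hmono.directed_le)]
  rw [hlim]
  refine iSup_le fun N => ?_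
  -- the test function
  set g : ℝ → ℂ := (B N).indicator (fun x => (starRingEnd ℂ) (𝓕 f x)) with hg
  have hgcont : Continuous (fun x => (starRingEnd ℂ) (𝓕 f x)) := Complex.continuous_conj.comp hcont
  have hBfin : volume (B N) < ∞ :=
    lt_of_le_of_lt (measure_mono inter_subset_right) (by simp [Real.volume_Icc])
  have hIccon : IntegrableOn (fun x => (starRingEnd ℂ) (𝓕 f x)) (B N) :=
    (hgcont.integrableOn_Icc (a := -(N : ℝ)) (b := N)).mono_set inter_subset_right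
  have hgi : Integrable g := (integrable_indicator_iff (hBm N)).2 hIccon
  have hg0 : ∀ x, x ∉ sparseSet → g x = 0 := by
    intro x hx
    rw [hg, indicator_of_notMem (fun h => hx h.1)]
  set I : ℝ≥0∞ := ∫⁻ x in B N, ‖𝓕 f x‖ₑ ^ 2 with hI
  have hgI : ∫⁻ x, ‖g x‖ₑ ^ 2 = I := by
    rw [hI, ← lintegral_indicator (hBm N)]
    congr 1
    ext x
    by_cases hx : x ∈ B N
    · rw [indicator_of_mem hx, hg, indicator_of_mem hx]
      simp [enorm_eq_nnnorm]
    · rw [indicator_of_notMem hx, hg, indicator_of_notMem hx]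
      simp
  have hIfin : I < ∞ := by
    have hsq : IntegrableOn (fun x => ‖𝓕 f x‖ ^ 2) (B N) :=
      ((hcont.norm.pow 2).integrableOn_Icc (a := -(N : ℝ)) (b := N)).mono_set inter_subset_right
    have := hsq.2
    rw [HasFiniteIntegral] at this
    refine lt_of_le_of_lt (le_of_eq ?_) this
    rw [hI]
    congr 1
    ext x
    simp [enorm_pow]
  have h4 := fourier_four_of_sparse hgi hg0
  rw [hgI] at h4
  -- duality
  have hdual : I ≤ ∫⁻ x, ‖f x‖ₑ * ‖𝓕 g x‖ₑ := by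
    have e1 : ∫ x, 𝓕 f x * g x = ∫ x, f x * 𝓕 g x := integral_fourier_mul_eq hf hgi
    have e2 : I = ‖∫ x, 𝓕 f x * g x‖ₑ := by
      have e3 : ∀ x, 𝓕 f x * g x = (((B N).indicator (fun x => ‖𝓕 f x‖ ^ 2) x : ℝ) : ℂ) := by
        intro x
        by_cases hx : x ∈ B N
        · rw [hg, indicator_of_mem hx, indicator_of_mem hx, Complex.mul_conj, Complex.normSq_eq_norm_sq]
        · rw [hg, indicator_of_notMem hx, indicator_of_notMem hx]; simp
      simp_rw [e3]
      rw [integral_complex_ofReal, integral_indicator (hBm N)]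
      have hnn : 0 ≤ ∫ x in B N, ‖𝓕 f x‖ ^ 2 := by positivity
      rw [show ‖((∫ x in B N, ‖𝓕 f x‖ ^ 2 : ℝ) : ℂ)‖ₑ = ENNReal.ofReal (∫ x in B N, ‖𝓕 f x‖ ^ 2) from by
        rw [← ofReal_norm, Complex.norm_real, Real.norm_of_nonneg hnn]]
      rw [ofReal_integral_eq_lintegral_ofReal]
      · rw [hI]
        congr 1
        ext x
        rw [ENNReal.ofReal_pow (norm_nonneg _), ofReal_norm]
      · exact ((hcont.norm.pow 2).integrableOn_Icc (a := -(N : ℝ)) (b := N)).mono_set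
          inter_subset_right
      · exact Filter.Eventually.of_forall fun x => by positivity
    rw [e2, e1]
    refine (enorm_integral_le_lintegral_enorm _).trans (le_of_eq ?_)
    simp [enorm_mul]
  have hgF : Continuous (𝓕 g) :=
    VectorFourier.fourierIntegral_continuous Real.continuous_fourierChar
      (by exact continuous_inner) hgi
  have hH := ENNReal.lintegral_mul_le_Lp_mul_Lq volume
    (show Real.HolderConjugate (4 / 3) 4 from by
      rw [Real.holderConjugate_iff]; norm_num) (f := fun x => ‖f x‖ₑ)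
      (g := fun x => ‖𝓕 g x‖ₑ) hf.1.enorm hgF.enorm.aemeasurable
  simp only [Pi.mul_apply] at hH
  have hle : I ≤ (2 * I ^ 2) ^ (1 / 4 : ℝ) := by
    calc I ≤ _ := hdual
      _ ≤ _ := hH
      _ ≤ 1 ^ (1 / (4 / 3) : ℝ) * (2 * I ^ 2) ^ (1 / 4 : ℝ) := by
        gcongr
        have : ∀ c : ℝ≥0∞, c ^ (4 : ℝ) = c ^ 4 := fun c => by
          rw [← ENNReal.rpow_natCast]; norm_num
        simp only [this]
        exact h4
      _ = _ := by simp
  have hle2 : I ^ 4 ≤ 2 * I ^ 2 := by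
    calc I ^ 4 ≤ ((2 * I ^ 2) ^ (1 / 4 : ℝ)) ^ 4 := by gcongr
      _ = 2 * I ^ 2 := by
        rw [← ENNReal.rpow_natCast, ← ENNReal.rpow_mul]
        norm_num
  -- conclude in `ℝ`
  lift I to NNReal using hIfin.ne with r
  have h5 : r ^ 4 ≤ 2 * r ^ 2 := by exact_mod_cast hle2
  have h6 : r ≤ 2 := by
    by_contra hcon
    push Not at hcon
    have h7 : (2 : ℝ) < r := by exact_mod_cast hcon
    have h8 : (r : ℝ) ^ 4 ≤ 2 * (r : ℝ) ^ 2 := by exact_mod_cast h5
    have h9 : (4 : ℝ) < (r : ℝ) ^ 2 := by nlinarith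
    nlinarith [h9, h8, sq_nonneg ((r : ℝ) ^ 2)]
  exact_mod_cast h6

end bounds

end Pool.Agent.Helper95_Fourier
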